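import Pool.Agent.H5.DPG.Stmts

/-! # Board dpg, row BIG -/

set_option autoImplicit false

namespace Pool.DPG

open Filter TMLib Pool.PG

theorem big_thm : BIGStmt := by
  intro g K X j B hK hD hB hC h8
  by_contra hcon
  push Not at hcon
  have hfs : fs g X ⊆ Finset.range g.length := Finset.filter_subset _ _
  have hA : fo g X j \ B ⊆ Finset.range g.length :=
    (Finset.sdiff_subset.trans (Finset.filter_subset _ _)).trans hfs
  obtain ⟨a, ha, hk⟩ := (hD K le_rfl _ B hA (hB.trans hfs) hcon h8).1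
  have hpos : 0 < (B.filter fun b => b ∈ suc g a).card := lt_of_lt_of_le hK hk
  obtain ⟨b, hb⟩ := Finset.card_pos.1 hpos
  rw [Finset.mem_filter] at hb
  rw [Finset.mem_sdiff] at ha
  obtain ⟨ha1, ha2⟩ := ha
  unfold fo at ha1
  rw [Finset.mem_filter] at ha1
  exact hC a ha1.1 ha2 ha1.2 b (hB hb.1) hb.2 hb.1

end Pool.DPG
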