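import Pool.Agent.H5.DPG.Stmts

/-! # Board dpg, row SMD -/

set_option autoImplicit false

namespace Pool.DPG

open Filter TMLib Pool.PG

theorem smd_thm (h1 : TJCStmt) (h2 : BTJStmt) (h3 : BYJStmt) (h4 : FSBStmt) (h5 : DSBStmt)
    (h6 : BRCStmt) (h7 : BRSStmt) (h8 : DMWStmt) (h9 : ATLStmt) : SMDStmt := by
  intro c g K X j B hg hD hc hX h64 hf hne hDm hC
  by_contra hcon
  push Not at hcon
  have hXl := hX.1
  have hs : 8 * K < g.length + 1 := by
    have h10 : (fs g X).card ≤ g.length := by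
      have h11 := Finset.card_filter_le (Finset.range g.length) (fun v => X.getD v false = true)
      rw [Finset.card_range] at h11
      exact h11
    omega
  have hT := h1 g K X j hD h64
  have hBT := h2 g X j (8 * K) B hDm hC hcon
  have hBY := h3 g X j (8 * K) B hXl hDm hBT
  have hYT : fs g (Yj g X j (8 * K)) ⊆ fs g (Tj g X j (8 * K)) := by
    intro v hv
    unfold Yj at hv
    rw [h4.2.1, Finset.mem_sdiff] at hv
    by_contra hvT
    apply hv.2
    apply (h9 g (!j) X _ hXl).2.1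
    rw [Finset.mem_inter, h4.2.1, Finset.mem_sdiff]
    exact ⟨hv.1, hv.1, hvT⟩
  have hYs : Sub g (Yj g X j (8 * K)) := (h5 g (!j) X _ hX).1
  have hYl := hYs.1
  have hcnt : cnt (Yj g X j (8 * K)) ≤ 72 * K := by
    rw [(h4.2.2.1 g _ hYl).1]
    exact (Finset.card_le_card hYT).trans hT
  have hb : bru c g (Yj g X j (8 * K)) ≠ [] :=
    h6 c g _ hg hYs ((Nat.pow_le_pow_right (by norm_num) hcnt).trans hc)
  obtain ⟨_, σ, hσ⟩ := h7 c g _ hYs hb
  have hlab := h8 ℕ (own g) (pri g) (fun v w => w ∈ suc g v) _ B j _ σ hBY hσ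
  obtain ⟨v, hv⟩ := hne
  have hvY : v ∈ fs g (Yj g X j (8 * K)) := hBY.1 hv
  have hv3 := hlab v hv
  unfold fs at hvY
  rw [Finset.mem_filter, Finset.mem_range] at hvY
  have hcnd : ((cnd c g X j (8 * K)).any fun b => b) = true := by
    unfold cnd
    rw [if_neg hb]
    unfold msk
    rw [List.any_map, List.any_eq_true]
    refine ⟨v, List.mem_range.2 hvY.1, ?_⟩
    show ((Yj g X j (8 * K)).getD v false &&
      ((bru c g (Yj g X j (8 * K))).getD v false == j)) = true
    rw [hvY.2, Bool.true_and, beq_iff_eq]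
    exact hv3
  have hmem : (j, cnd c g X j (8 * K)) ∈ fnd c g X := by
    unfold fnd
    rw [List.mem_filter]
    refine ⟨?_, hcnd⟩
    rw [List.mem_flatMap]
    refine ⟨8 * K, List.mem_range.2 hs, ?_⟩
    cases j <;> simp
  rw [hf] at hmem
  exact List.not_mem_nil hmem

end Pool.DPG
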